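import Pool.Agent.U770.FM.Field

/-!
# MP_db5b97_nt: fields of definition and fields of moduli

Morphisms of degree `d` of the projective space of dimension `N` over the algebraic numbers are
given by tuples of `N + 1` forms of degree `d` without common zero (`IsMorphism`), up to a common
scalar (`Same`). `conj φ f` is `φ⁻¹ ∘ f ∘ φ`. The field of moduli `moduliField f` is the fixed field
of the automorphisms `σ` such that the conjugate tuple `gal σ f` defines a morphism which is
conjugate to `f`. `FOMFOD N d` is the supremum over all morphisms `f` of degree `d` of the least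
degree over `moduliField f` of a field of definition of `f`.

The theorem: for every `N ≥ 1` the supremum of `FOMFOD N d` over all `d ≥ 2` is finite (Q1: yes, for
every `N`).

Proof. Let `G` be the group of the pairs `(e, σ)` of an element `σ` of the Galois group and a
`σ`-semilinear bijection `e` of `V = Qbar ^ (N + 1)` with `e ∘ f = f ∘ e`. The image of `G` in the Galois
group consists of the `σ` such that the conjugate of `f` under `σ` is conjugate to `f`, and the
kernel `A` is finite. If a subgroup `H` of `G` has a basis of `V` of invariant vectors, then in this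
basis `f` has coefficients in the fixed field of the image of `H`; it remains to find `H` such that the
index of its image is bounded in terms of `N`. One argues by induction on the dimension of a
semilinear representation `W` of a group with finite kernel `A`: for lines a subgroup of
index one of the image works (Hilbert 90 for a power of the cocycle). For larger dimension there is a subgroup of
bounded index which stabilizes both parts of a nontrivial decomposition of `W`: by Jordan's theorem
the `M`-th powers of the elements of `A` commute, and either they have a common eigenspace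
decomposition, which is permuted by the group, or they are scalars; then the algebra of
the linear maps commuting up to scalars with `A` and descent give the decomposition.
-/

set_option autoImplicit false
set_option linter.unusedSectionVars false

open MvPolynomial Module

namespace Pool.Agent.Results.MP_db5b97_nt.UniformBound

/-- the field of algebraic numbers -/
abbrev Qbar : Type := AlgebraicClosure ℚ

/-- tuples of `N + 1` polynomials in `N + 1` variables with algebraic coefficients -/
abbrev Tuple (N : ℕ) : Type := Fin (N + 1) → MvPolynomial (Fin (N + 1)) Qbar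

/-- `f` defines a morphism of degree `d` of the projective space of dimension `N`: forms of degree
`d` without common zero except the origin. -/
def IsMorphism (N d : ℕ) (f : Tuple N) : Prop :=
  (∀ i, (f i).IsHomogeneous d) ∧ ∀ v : Fin (N + 1) → Qbar, (∀ i, eval v (f i) = 0) → v = 0

/-- two tuples define the same point of the projective space of coefficients -/
def Same {N : ℕ} (f g : Tuple N) : Prop := ∃ c : Qbar, c ≠ 0 ∧ ∀ i, g i = C c * f i

/-- the linear forms given by the rows of a matrix -/
noncomputable def linear {N : ℕ} (φ : GL (Fin (N + 1)) Qbar) : Tuple N :=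
  fun i => ∑ j, C (φ.1 i j) * X j

/-- composition: substitute `g` in `f` -/
noncomputable def comp {N : ℕ} (f g : Tuple N) : Tuple N := fun i => bind₁ g (f i)

/-- the conjugate `φ⁻¹ ∘ f ∘ φ` -/
noncomputable def conj {N : ℕ} (φ : GL (Fin (N + 1)) Qbar) (f : Tuple N) : Tuple N :=
  comp (linear φ⁻¹) (comp f (linear φ))

/-- apply an automorphism of `Qbar` to all coefficients -/
noncomputable def gal {N : ℕ} (σ : Qbar ≃ₐ[ℚ] Qbar) (f : Tuple N) : Tuple N :=
  fun i => MvPolynomial.map (σ : Qbar →+* Qbar) (f i)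

/-- the field of moduli: the fixed field of the set of all `σ` such that the conjugate of `f` under
`σ` is conjugate to `f` under the projective linear group -/
def moduliField {N : ℕ} (f : Tuple N) : IntermediateField ℚ Qbar where
  carrier := {x | ∀ σ : Qbar ≃ₐ[ℚ] Qbar,
    (∃ φ : GL (Fin (N + 1)) Qbar, Same (gal σ f) (conj φ f)) → σ x = x}
  mul_mem' := fun {x y} hx hy σ hσ => by rw [map_mul, hx σ hσ, hy σ hσ]
  add_mem' := fun {x y} hx hy σ hσ => by rw [map_add, hx σ hσ, hy σ hσ]
  algebraMap_mem' := fun r σ _ => σ.commutes r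
  inv_mem' := fun x hx σ hσ => by rw [map_inv₀, hx σ hσ]

/-- `L` is a field of definition of `f`: some conjugate of `f` is given by a tuple with coefficients
in `L`. -/
def IsFieldOfDefinition {N : ℕ} (f : Tuple N) (L : IntermediateField ℚ Qbar) : Prop :=
  ∃ (φ : GL (Fin (N + 1)) Qbar) (g : Tuple N), Same (conj φ f) g ∧ ∀ i m, coeff m (g i) ∈ L

/-- the supremum over all morphisms `f` of degree `d` of the minimum of the degrees `[L : K]`, where
`K` is the field of moduli of `f` and `L` runs through the fields of definition of `f` -/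
noncomputable def FOMFOD (N d : ℕ) : ℕ∞ :=
  ⨆ f : {f : Tuple N // IsMorphism N d f}, ⨅ L : {L // IsFieldOfDefinition f.1 L},
    Cardinal.toENat (IntermediateField.relrank (moduliField f.1) L.1)

/-! ## Evaluation -/

open Pool.Agent.U770.FM

theorem ev_comp {N : ℕ} (f g : Tuple N) (v : Fin (N + 1) → Qbar) :
    ev (comp f g) v = ev f (ev g v) := by
  funext i
  change eval v (bind₁ g (f i)) = eval (fun j => eval v (g j)) (f i)
  have h := eval₂Hom_bind₁ (RingHom.id Qbar) v g (f i)
  exact h

theorem ev_linear {N : ℕ} (φ : GL (Fin (N + 1)) Qbar) (v : Fin (N + 1) → Qbar) :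
    ev (linear φ) v = φ.1.mulVec v := by
  funext i
  change eval v (∑ j, C (φ.1 i j) * X j) = ∑ j, φ.1 i j * v j
  rw [map_sum]
  refine Finset.sum_congr rfl fun j _ => ?_
  rw [map_mul, eval_C, eval_X]

theorem ev_conj {N : ℕ} (φ : GL (Fin (N + 1)) Qbar) (f : Tuple N) (v : Fin (N + 1) → Qbar) :
    ev (conj φ f) v = (φ⁻¹).1.mulVec (ev f (φ.1.mulVec v)) := by
  rw [conj, ev_comp, ev_linear, ev_comp, ev_linear]

theorem inv_mul {N : ℕ} (φ : GL (Fin (N + 1)) Qbar) (v : Fin (N + 1) → Qbar) :
    (φ⁻¹).1.mulVec (φ.1.mulVec v) = v := by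
  rw [Matrix.mulVec_mulVec, ← Units.val_mul, inv_mul_cancel, Units.val_one, Matrix.one_mulVec]

theorem mul_inv {N : ℕ} (φ : GL (Fin (N + 1)) Qbar) (v : Fin (N + 1) → Qbar) :
    φ.1.mulVec ((φ⁻¹).1.mulVec v) = v := by
  rw [Matrix.mulVec_mulVec, ← Units.val_mul, mul_inv_cancel, Units.val_one, Matrix.one_mulVec]

theorem map_conj {N : ℕ} (φ : GL (Fin (N + 1)) Qbar) (f : Tuple N) (v : Fin (N + 1) → Qbar) :
    φ.1.mulVec (ev (conj φ f) v) = ev f (φ.1.mulVec v) := by
  rw [ev_conj, mul_inv]

theorem mulVec_inj {N : ℕ} (φ : GL (Fin (N + 1)) Qbar) {v w : Fin (N + 1) → Qbar}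
    (h : φ.1.mulVec v = φ.1.mulVec w) : v = w := by
  rw [← inv_mul φ v, h, inv_mul]

theorem gal_eq_mp {N : ℕ} (σ : Qbar ≃ₐ[ℚ] Qbar) (f : Tuple N) : gal σ f = mp σ f := rfl

theorem ev_of_same {N : ℕ} {f g : Tuple N} {c : Qbar} (h : ∀ i, g i = C c * f i)
    (v : Fin (N + 1) → Qbar) : ev g v = c • ev f v := by
  funext i
  change eval v (g i) = c * eval v (f i)
  rw [h, map_mul, eval_C]

theorem same_of_ev {N : ℕ} {f g : Tuple N} {c : Qbar}
    (h : ∀ v : Fin (N + 1) → Qbar, ev g v = c • ev f v) (i : Fin (N + 1)) : g i = C c * f i := by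
  have h1 : g = fun i => C c * f i := by
    apply ev_inj
    intro v
    rw [h]
    funext i
    change c * eval v (f i) = eval v (C c * f i)
    rw [map_mul, eval_C]
  exact congrFun h1 i

/-- invertible linear maps are given by invertible matrices -/
theorem exists_GL {N : ℕ} (e : (Fin (N + 1) → Qbar) ≃ₗ[Qbar] (Fin (N + 1) → Qbar)) :
    ∃ φ : GL (Fin (N + 1)) Qbar, ∀ v, φ.1.mulVec v = e v := by
  refine ⟨⟨LinearMap.toMatrix' e.toLinearMap, LinearMap.toMatrix' e.symm.toLinearMap, ?_, ?_⟩, ?_⟩
  · rw [← LinearMap.toMatrix'_comp, ← LinearMap.toMatrix'_id]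
    congr 1
    exact LinearMap.ext fun v => e.apply_symm_apply v
  · rw [← LinearMap.toMatrix'_comp, ← LinearMap.toMatrix'_id]
    congr 1
    exact LinearMap.ext fun v => e.symm_apply_apply v
  · intro v
    change (LinearMap.toMatrix' e.toLinearMap).mulVec v = e v
    rw [LinearMap.toMatrix'_mulVec]
    rfl

theorem good {N d : ℕ} {f : Tuple N} (hf : IsMorphism N d f) : Good d f :=
  ⟨hf.1, fun v h => hf.2 v fun i => congrFun h i⟩

/-- the image of the group of semilinear maps in the Galois group -/
theorem mem_range {N d : ℕ} (hd : 2 ≤ d) {f : Tuple N} (hf : IsMorphism N d f)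
    (σ : Qbar ≃ₐ[ℚ] Qbar) :
    σ ∈ Set.range (chi f) ↔ ∃ φ : GL (Fin (N + 1)) Qbar, Same (gal σ f) (conj φ f) := by
  constructor
  · rintro ⟨⟨⟨e, τ⟩, h1, h2, h3⟩, rfl⟩
    change ∃ φ : GL (Fin (N + 1)) Qbar, Same (gal τ f) (conj φ f)
    have hτ : ∀ v : Fin (N + 1) → Qbar, co τ ((co τ).symm v) = v := (co τ).apply_symm_apply
    have hadd : ∀ v w : Fin (N + 1) → Qbar, (co τ).symm (v + w) = (co τ).symm v + (co τ).symm w := by
      intro v w
      apply (co τ).injective
      rw [co_add, hτ, hτ, hτ]
    have hsmul : ∀ (c : Qbar) (v : Fin (N + 1) → Qbar), (co τ).symm (c • v) = τ.symm c • (co τ).symm v := by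
      intro c v
      apply (co τ).injective
      rw [co_smul, hτ, hτ, τ.apply_symm_apply]
    let g : (Fin (N + 1) → Qbar) ≃ₗ[Qbar] (Fin (N + 1) → Qbar) :=
      { toFun := fun v => e ((co τ).symm v)
        invFun := fun v => co τ (e.symm v)
        left_inv := fun v => by
          change co τ (e.symm (e ((co τ).symm v))) = v
          rw [e.symm_apply_apply, hτ]
        right_inv := fun v => by
          change e ((co τ).symm (co τ (e.symm v))) = v
          rw [Equiv.symm_apply_apply, e.apply_symm_apply]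
        map_add' := fun v w => by rw [hadd, h1]
        map_smul' := fun c v => by
          rw [hsmul, h2]
          change τ (τ.symm c) • _ = _
          rw [τ.apply_symm_apply]
          rfl }
    obtain ⟨φ, hφ⟩ := exists_GL g
    have hg : ∀ v, φ.1.mulVec (co τ v) = e v := by
      intro v
      rw [hφ]
      change e ((co τ).symm (co τ v)) = e v
      rw [Equiv.symm_apply_apply]
    refine ⟨φ, 1, one_ne_zero, same_of_ev fun v => ?_⟩
    obtain ⟨w, rfl⟩ := (co τ).surjective v
    apply mulVec_inj φ
    rw [map_conj, hg, one_smul, gal_eq_mp, ← co_ev, hg]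
    exact (h3 w).symm
  · rintro ⟨φ, c, hc, h⟩
    have h0 := ev_of_same h
    obtain ⟨l, hl⟩ := IsAlgClosed.exists_pow_nat_eq c⁻¹ (show 0 < d - 1 by omega)
    have hl0 : l ≠ 0 := by
      rintro rfl
      rw [zero_pow (by omega)] at hl
      exact inv_ne_zero hc hl.symm
    have hld : l ^ d * c = l := by
      have h1 : d = (d - 1) + 1 := by omega
      rw [h1, pow_succ, hl, mul_comm, ← mul_assoc, mul_inv_cancel₀ hc, one_mul]
    let e : Equiv.Perm (Fin (N + 1) → Qbar) :=
      { toFun := fun v => l • φ.1.mulVec (co σ v)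
        invFun := fun v => (co σ).symm ((φ⁻¹).1.mulVec (l⁻¹ • v))
        left_inv := fun v => by
          change (co σ).symm ((φ⁻¹).1.mulVec (l⁻¹ • (l • φ.1.mulVec (co σ v)))) = v
          rw [inv_smul_smul₀ hl0, inv_mul, Equiv.symm_apply_apply]
        right_inv := fun v => by
          change l • φ.1.mulVec (co σ ((co σ).symm ((φ⁻¹).1.mulVec (l⁻¹ • v)))) = v
          rw [Equiv.apply_symm_apply, mul_inv, smul_inv_smul₀ hl0] }
    refine ⟨⟨(e, σ), fun v w => ?_, fun a v => ?_, fun v => ?_⟩, rfl⟩
    · change l • φ.1.mulVec (co σ (v + w)) = l • φ.1.mulVec (co σ v) + l • φ.1.mulVec (co σ w)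
      rw [co_add, Matrix.mulVec_add, smul_add]
    · change l • φ.1.mulVec (co σ (a • v)) = σ a • l • φ.1.mulVec (co σ v)
      rw [co_smul, Matrix.mulVec_smul, smul_comm]
    · change l • φ.1.mulVec (co σ (ev f v)) = ev f (l • φ.1.mulVec (co σ v))
      rw [ev_smul (good hf), ← map_conj, h0, Matrix.mulVec_smul, smul_smul, hld, co_ev]
      rfl

theorem moduliField_eq {N d : ℕ} (hd : 2 ≤ d) {f : Tuple N} (hf : IsMorphism N d f) :
    moduliField f = fixF (Set.range (chi f)) := by
  ext x
  constructor
  · intro hx σ hσ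
    exact hx σ ((mem_range hd hf σ).1 hσ)
  · intro hx σ hσ
    exact hx σ ((mem_range hd hf σ).2 hσ)

theorem co_mulVec {N : ℕ} (σ : Qbar ≃ₐ[ℚ] Qbar) (A : Matrix (Fin (N + 1)) (Fin (N + 1)) Qbar)
    (v : Fin (N + 1) → Qbar) :
    co σ (A.mulVec v) = (A.map (σ : Qbar →+* Qbar)).mulVec (co σ v) := by
  funext i
  change σ (∑ j, A i j * v j) = ∑ j, σ (A i j) * σ (v j)
  rw [map_sum]
  exact Finset.sum_congr rfl fun j _ => map_mul σ _ _

/-- **Every field of definition contains the field of moduli.** -/
theorem moduliField_le {N : ℕ} {f : Tuple N} {L : IntermediateField ℚ Qbar}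
    (hL : IsFieldOfDefinition f L) : moduliField f ≤ L := by
  obtain ⟨φ, g, ⟨c, hc, hg⟩, hcoeff⟩ := hL
  intro x hx
  have : IsGalois ℚ Qbar := by
    have : Normal ℚ Qbar := IsAlgClosure.normal ℚ Qbar
    exact ⟨⟩
  rw [← InfiniteGalois.fixedField_fixingSubgroup L, IntermediateField.mem_fixedField_iff]
  intro σ hσ
  rw [IntermediateField.mem_fixingSubgroup_iff] at hσ
  apply hx σ
  have h1 : mp σ g = g := by
    funext i
    apply MvPolynomial.ext
    intro m
    change coeff m (MvPolynomial.map _ (g i)) = _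
    rw [coeff_map]
    exact hσ _ (hcoeff i m)
  -- the matrix with the conjugate entries
  let φ' : GL (Fin (N + 1)) Qbar := Matrix.GeneralLinearGroup.map (σ : Qbar →+* Qbar) φ
  have hφ' : ∀ v : Fin (N + 1) → Qbar, φ'.1.mulVec (co σ v) = co σ (φ.1.mulVec v) := by
    intro v
    rw [co_mulVec]
    rfl
  have e1 : ∀ v, ev g v = c • ev (conj φ f) v := ev_of_same hg
  have e2 : ∀ v : Fin (N + 1) → Qbar, co σ (ev g v) = ev g (co σ v) := by
    intro v
    have h := co_ev σ g v
    rw [h1] at h
    exact h
  have hσc : σ c ≠ 0 := fun h => hc (by rwa [map_eq_zero] at h)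
  refine ⟨φ * φ'⁻¹, c⁻¹ * σ c, mul_ne_zero (inv_ne_zero hc) hσc, same_of_ev fun w => ?_⟩
  obtain ⟨u, rfl⟩ : ∃ u, φ'.1.mulVec (co σ u) = w := by
    obtain ⟨u, hu⟩ := (co σ).surjective ((φ'⁻¹).1.mulVec w)
    exact ⟨u, by rw [hu, mul_inv]⟩
  apply mulVec_inj (φ * φ'⁻¹)
  have e3 : ∀ v, (φ * φ'⁻¹).1.mulVec (φ'.1.mulVec v) = φ.1.mulVec v := by
    intro v
    rw [Matrix.mulVec_mulVec, ← Units.val_mul, inv_mul_cancel_right]
  rw [map_conj, e3, Matrix.mulVec_smul]
  have e4 : ev (gal σ f) (φ'.1.mulVec (co σ u)) = φ'.1.mulVec (co σ (ev (conj φ f) u)) := by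
    rw [gal_eq_mp, hφ', ← co_ev, ← map_conj, ← hφ']
  rw [e4, e3, ← Matrix.mulVec_smul, ← map_conj]
  congr 1
  have e5 : ev (conj φ f) (co σ u) = c⁻¹ • ev g (co σ u) := by
    rw [e1, inv_smul_smul₀ hc]
  rw [e5, ← e2, e1, co_smul, smul_smul]

theorem setup_sum {N : ℕ} {f : Tuple N} (h : grp f) {ι : Type} [Fintype ι]
    (g : ι → Fin (N + 1) → Qbar) : h.1.1 (∑ j, g j) = ∑ j, h.1.1 (g j) :=
  map_sum (AddMonoidHom.mk' h.1.1 h.2.1) g Finset.univ

/-- **A field of definition of bounded degree over the field of moduli.** -/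
theorem exists_field (N : ℕ) : ∃ D : ℕ, ∀ d, 2 ≤ d → ∀ f : Tuple N, IsMorphism N d f →
    ∃ L : IntermediateField ℚ Qbar, IsFieldOfDefinition f L ∧
      IntermediateField.relrank (moduliField f) L ≤ D := by
  obtain ⟨D, hD⟩ := main (N + 1)
  refine ⟨D, fun d hd f hf => ?_⟩
  obtain ⟨H, b, hc, hb⟩ := hD d hd f (good hf)
  refine ⟨fixF (chi f '' H), ?_, ?_⟩
  · obtain ⟨φ, hφ⟩ := exists_GL b.equivFun.symm
    have hs : ∀ h ∈ H, ∀ v, φ.1.mulVec (co (chi f h) v) = h.1.1 (φ.1.mulVec v) := by
      intro h hh v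
      rw [hφ, hφ, Basis.equivFun_symm_apply, Basis.equivFun_symm_apply,
        setup_sum h fun j => v j • b j]
      refine Finset.sum_congr rfl fun j _ => ?_
      rw [h.2.2.1, hb h hh j]
      rfl
    refine ⟨φ, conj φ f, ⟨1, one_ne_zero, fun i => by rw [C_1, one_mul]⟩, fun i m => ?_⟩
    rintro _ ⟨h, hh, rfl⟩
    have h1 : mp (chi f h) (conj φ f) = conj φ f := by
      apply ev_inj
      intro w
      obtain ⟨v, rfl⟩ := (co (chi f h)).surjective w
      rw [← co_ev]
      apply mulVec_inj φ
      rw [map_conj, hs h hh, hs h hh, map_conj]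
      exact h.2.2.2 _
    have h2 := congrArg (coeff m) (congrFun h1 i)
    change coeff m (MvPolynomial.map _ (conj φ f i)) = _ at h2
    rw [coeff_map] at h2
    exact h2
  · rw [moduliField_eq hd hf]
    exact artin_rank (chi f) H hc

/-- **Fields of moduli and fields of definition** (Q1): for every `N ≥ 1` the supremum of
`FOMFOD N d` over all `d ≥ 2` is finite. The second part says that the fields of definition contain
the field of moduli, so that the relative ranks in the definition of `FOMFOD` are the degrees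
`[L : K]`. -/
theorem result : ∀ N : ℕ, 1 ≤ N →
    (⨆ d : {d : ℕ // 2 ≤ d}, FOMFOD N d.1) < ⊤ ∧
    ∀ (f : Tuple N) (L : IntermediateField ℚ Qbar), IsFieldOfDefinition f L → moduliField f ≤ L := by
  intro N _
  refine ⟨?_, fun f L hL => moduliField_le hL⟩
  obtain ⟨D, hD⟩ := exists_field N
  refine lt_of_le_of_lt (b := (D : ℕ∞)) ?_ (ENat.natCast_lt_top D)
  refine iSup_le fun d => iSup_le fun f => ?_
  obtain ⟨L, hL, hLD⟩ := hD d.1 d.2 f.1 f.2
  refine (iInf_le _ (⟨L, hL⟩ : {L // IsFieldOfDefinition f.1 L})).trans ?_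
  rw [Cardinal.toENat_le_natCast]
  exact hLD

end Pool.Agent.Results.MP_db5b97_nt.UniformBound
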